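import Pool.Agent.helper74.GN.Defs

/-!
# GNU project: GN0, coprime automorphisms of finite groups
-/

namespace Pool.Agent.helper74.GN

/-- GN0a: number of fixed points of an automorphism of prime order `r ≠ p`. -/
theorem aut_fix {p r n : ℕ} (hp : p.Prime) (hr : r.Prime) (H : Type) [Group H]
    (hH : Nat.card H = p ^ n) (g : MulAut H) (hg : g ^ r = 1) :
    ∃ i ≤ n, Nat.card {x : H // g x = x} = p ^ i ∧ ((p : ZMod r) ^ n = (p : ZMod r) ^ i) := by
  have hfin : Finite H := Nat.finite_of_card_ne_zero (by rw [hH]; exact pow_ne_zero _ hp.ne_zero)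
  have : Fact r.Prime := ⟨hr⟩
  let F : Subgroup H := MonoidHom.eqLocus g.toMonoidHom (MonoidHom.id H)
  have hF : Nat.card F ∣ p ^ n := hH ▸ Subgroup.card_subgroup_dvd_card F
  obtain ⟨i, hi, hFi⟩ := (Nat.dvd_prime_pow hp).1 hF
  have hpg : IsPGroup r (Subgroup.zpowers g) := by
    rw [IsPGroup.iff_card]
    rw [Nat.card_zpowers]
    have := orderOf_dvd_of_pow_eq_one hg
    rcases (Nat.dvd_prime hr).1 this with h | h
    · exact ⟨0, by simpa using h⟩
    · exact ⟨1, by simpa using h⟩
  have hmod := hpg.card_modEq_card_fixedPoints H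
  have hfp : Nat.card (MulAction.fixedPoints (Subgroup.zpowers g) H) = p ^ i := by
    rw [← hFi]
    refine Nat.card_congr (Equiv.setCongr ?_)
    ext x
    constructor
    · intro h
      exact h ⟨g, Subgroup.mem_zpowers g⟩
    · rintro h ⟨k, hk⟩
      obtain ⟨m, rfl⟩ := Subgroup.mem_zpowers_iff.1 hk
      have hx : g x = x := h
      show (g ^ m) x = x
      have h1 : g ∈ MulAction.stabilizer (MulAut H) x := hx
      exact Subgroup.zpow_mem _ h1 m
  refine ⟨i, hi, ?_, ?_⟩
  · rw [← hFi]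
    exact Nat.card_congr (Equiv.refl _)
  · rw [hH, hfp] at hmod
    have := (ZMod.natCast_eq_natCast_iff _ _ _).2 hmod
    push_cast at this
    exact this

/-- GN0b -/
theorem aut_trivial {p r n : ℕ} (hp : p.Prime) (hr : r.Prime) (hrp : r ≠ p)
    (h : ∀ j : ℕ, 0 < j → j ≤ n → (p : ZMod r) ^ j ≠ 1) (H : Type) [Group H]
    (hH : Nat.card H = p ^ n) (g : MulAut H) (hg : g ^ r = 1) : g = 1 := by
  have : Fact r.Prime := ⟨hr⟩
  have hfin : Finite H := Nat.finite_of_card_ne_zero (by rw [hH]; exact pow_ne_zero _ hp.ne_zero)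
  obtain ⟨i, hi, hc, he⟩ := aut_fix hp hr H hH g hg
  have hp0 : (p : ZMod r) ≠ 0 := by
    intro h0
    have := (ZMod.natCast_eq_zero_iff p r).1 h0
    exact hrp ((Nat.prime_dvd_prime_iff_eq hr hp).1 this)
  have hin : i = n := by
    by_contra hne
    have hlt : 0 < n - i := by omega
    refine h (n - i) hlt (by omega) ?_
    have h2 : (p : ZMod r) ^ (n - i) * (p : ZMod r) ^ i = 1 * (p : ZMod r) ^ i := by
      rw [← pow_add, Nat.sub_add_cancel hi, he, one_mul]
    exact mul_right_cancel₀ (pow_ne_zero _ hp0) h2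
  have hall : ∀ x : H, g x = x := by
    have h3 : Nat.card {x : H // g x = x} = Nat.card H := by rw [hc, hH, hin]
    have h4 : ({x : H | g x = x} : Set H) = Set.univ := by
      refine (Set.eq_univ_iff_ncard _).2 ?_
      rw [← h3]
      exact (Nat.card_coe_set_eq _).symm
    intro x
    have : x ∈ ({x : H | g x = x} : Set H) := h4 ▸ Set.mem_univ x
    exact this
  exact MulEquiv.ext fun x => hall x

/-- GN0c: coprime automorphism acting trivially on a normal subgroup and on the quotient. -/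
theorem aut_stab {r : ℕ} (hr : r.Prime) (H : Type) [Group H] [Finite H]
    (hrH : Nat.Coprime r (Nat.card H)) (N : Subgroup H) (g : MulAut H) (hg : g ^ r = 1)
    (h1 : ∀ x ∈ N, g x = x) (h2 : ∀ x : H, x⁻¹ * g x ∈ N) : g = 1 := by
  refine MulEquiv.ext fun x => ?_
  show g x = x
  have hk : ∀ k : ℕ, (g ^ k) x = x * (x⁻¹ * g x) ^ k := by
    intro k
    induction k with
    | zero => simp
    | succ k ih =>
      have h3 : (g ^ (k + 1)) x = g ((g ^ k) x) := by rw [pow_succ']; rfl
      rw [h3, ih, map_mul, map_pow, h1 _ (h2 x), pow_succ', ← mul_assoc, mul_inv_cancel_left]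
  have h4 := hk r
  rw [hg] at h4
  have h5 : (x⁻¹ * g x) ^ r = 1 := by
    have : x = x * (x⁻¹ * g x) ^ r := h4
    exact (mul_eq_left.1 this.symm)
  have h6 : x⁻¹ * g x = 1 := by
    have h7 : orderOf (x⁻¹ * g x) ∣ r := orderOf_dvd_of_pow_eq_one h5
    have h8 : orderOf (x⁻¹ * g x) ∣ Nat.card H := orderOf_dvd_natCard _
    have h9 : orderOf (x⁻¹ * g x) ∣ 1 := by
      have := Nat.dvd_gcd h7 h8
      rwa [Nat.Coprime.gcd_eq_one hrH] at this
    exact orderOf_eq_one_iff.1 (Nat.dvd_one.1 h9)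
  exact (inv_mul_eq_one.1 h6).symm

end Pool.Agent.helper74.GN
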