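import Pool.Agent.helper57.GN.GN6a
import Pool.Agent.helper57.GN.GN6b
import Pool.Agent.helper12.GN.GN0

/-!
# GNU project: GN7e, the `D`-block
-/

namespace Pool.Agent.helper74.GN

/-- Multiplication by a unit of a field as an automorphism of the additive group. -/
def mulU {K : Type} [Field K] (ζ : Kˣ) : MulAut (Multiplicative K) :=
  AddEquiv.toMultiplicative (DistribMulAction.toAddEquiv K ζ)

theorem mulU_apply {K : Type} [Field K] (ζ : Kˣ) (x : Multiplicative K) :
    mulU ζ x = Multiplicative.ofAdd ((ζ : K) * Multiplicative.toAdd x) := rfl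

theorem mulU_mul {K : Type} [Field K] (ζ ξ : Kˣ) : mulU (ζ * ξ) = mulU ζ * mulU ξ := by
  refine MulEquiv.ext fun x => ?_
  show mulU (ζ * ξ) x = mulU ζ (mulU ξ x)
  simp only [mulU_apply, Units.val_mul, toAdd_ofAdd, mul_assoc]

theorem mulU_one {K : Type} [Field K] : mulU (1 : Kˣ) = 1 := by
  refine MulEquiv.ext fun x => ?_
  show mulU (1 : Kˣ) x = x
  simp only [mulU_apply, Units.val_one, one_mul, ofAdd_toAdd]

theorem mulU_pow {K : Type} [Field K] (ζ : Kˣ) (k : ℕ) : mulU ζ ^ k = mulU (ζ ^ k) := by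
  induction k with
  | zero => rw [pow_zero, pow_zero, mulU_one]
  | succ k ih => rw [pow_succ, pow_succ, mulU_mul, ih]

theorem mulU_pow_apply {K : Type} [Field K] (ζ : Kˣ) (k : ℕ) (x : Multiplicative K) :
    (mulU ζ ^ k) x = Multiplicative.ofAdd ((ζ : K) ^ k * Multiplicative.toAdd x) := by
  rw [mulU_pow, mulU_apply, Units.val_pow_eq_pow_val]

/-- the existence of a unit of order `D` in a finite field -/
theorem exists_unit_order {K : Type} [Field K] [Finite K] {D : ℕ}
    (h : D ∣ Nat.card K - 1) : ∃ ζ : Kˣ, orderOf ζ = D := by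
  have hc : Nat.card Kˣ = Nat.card K - 1 := Nat.card_units K
  obtain ⟨g, hg⟩ := IsCyclic.exists_ofOrder_eq_natCard (α := Kˣ)
  rw [hc] at hg
  obtain ⟨m, hm⟩ := h
  have hpos : 0 < Nat.card K - 1 := by
    rw [← hc]; exact Nat.card_pos
  have hm0 : m ≠ 0 := by
    rintro rfl
    rw [mul_zero] at hm
    omega
  refine ⟨g ^ m, ?_⟩
  rw [orderOf_pow_of_dvd hm0 (by rw [hg, hm]; exact dvd_mul_left _ _), hg, hm]
  exact Nat.mul_div_cancel _ (Nat.pos_of_ne_zero hm0)

/-- elements of the same prime order in a cyclic group -/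
theorem exists_unit_pow {K : Type} [Field K] [Finite K] {D : ℕ} (hD : D.Prime) (ζ ξ : Kˣ)
    (h1 : orderOf ζ = D) (h2 : orderOf ξ = D) : ∃ u : (ZMod D)ˣ, ξ = ζ ^ (u : ZMod D).val := by
  have : Fact D.Prime := ⟨hD⟩
  have hprim : IsPrimitiveRoot ζ D := h1 ▸ IsPrimitiveRoot.orderOf ζ
  have hprim' : IsPrimitiveRoot (ζ : K) D := IsPrimitiveRoot.coe_units_iff.2 hprim
  have hξD : ξ ^ D = 1 := by rw [← h2]; exact pow_orderOf_eq_one ξ
  have : NeZero D := ⟨hD.ne_zero⟩
  obtain ⟨k, hk1, hke0⟩ := hprim'.eq_pow_of_pow_eq_one (ξ := (ξ : K)) (by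
    rw [← Units.val_pow_eq_pow_val, hξD, Units.val_one])
  have hke : ζ ^ k = ξ := Units.ext (by rw [Units.val_pow_eq_pow_val]; exact hke0)
  have hk0 : (k : ZMod D) ≠ 0 := by
    intro h0
    have h4 := (ZMod.natCast_eq_zero_iff k D).1 h0
    have h5 : k = 0 := Nat.eq_zero_of_dvd_of_lt h4 hk1
    rw [h5, pow_zero] at hke
    rw [← hke, orderOf_one] at h2
    exact hD.one_lt.ne h2
  refine ⟨Units.mk0 (k : ZMod D) hk0, ?_⟩
  rw [Units.val_mk0, ZMod.val_natCast_of_lt hk1, hke]

/-- GN7e: the `D`-block. -/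
theorem blockWD {D w : ℕ} (hD : D.Prime) (hw : w.Prime) (h3 : 3 < D)
    (hwD : (w : ZMod D) ^ 2 + (w : ZMod D) + 1 = 0) : ∃ (A : Type) (_ : CommGroup A)
    (δ : MulAut A), Nat.card A = w ^ 3 ∧ δ ^ D = 1 ∧ δ ≠ 1 ∧
    (∀ (H : Type) [Group H], Nat.card H = w ^ 3 → ∀ d : MulAut H, d ^ D = 1 → d ≠ 1 →
      ∃ (u : (ZMod D)ˣ) (e : H ≃* A), ∀ x, e (d x) = (δ ^ (u : ZMod D).val) (e x)) ∧
    (∃ e : A ≃* A, ∀ x, e ((δ ^ w) x) = δ (e x)) ∧
    (∀ u : (ZMod D)ˣ, (∃ e : A ≃* A, ∀ x, e ((δ ^ (u : ZMod D).val) x) = δ (e x)) →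
      u ^ 3 = 1) := by
  have : Fact D.Prime := ⟨hD⟩
  have : Fact w.Prime := ⟨hw⟩
  have hwD1 : (w : ZMod D) ≠ 1 := by
    intro h1
    have h2 := hwD
    rw [h1] at h2
    have h3' : ((3 : ℕ) : ZMod D) = 0 := by
      push_cast
      linear_combination h2
    have h4 := (ZMod.natCast_eq_zero_iff 3 D).1 h3'
    have h5 := Nat.le_of_dvd (by norm_num) h4
    omega
  have hwD2 : (w : ZMod D) ^ 2 ≠ 1 := by
    intro h1
    have h2 := hwD
    have h3' : (w : ZMod D) = -2 := by linear_combination h2 - h1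
    rw [h3'] at h1
    have h4 : ((3 : ℕ) : ZMod D) = 0 := by
      push_cast
      linear_combination h1
    have h4 := (ZMod.natCast_eq_zero_iff 3 D).1 h4
    have h5 := Nat.le_of_dvd (by norm_num) h4
    omega
  have hwD3 : (w : ZMod D) ^ 3 = 1 := by
    linear_combination ((w : ZMod D) - 1) * hwD
  have hDw : D ≠ w := by
    rintro rfl
    rw [CharP.cast_eq_zero] at hwD
    simp at hwD
  let K : Type := GaloisField w 3
  have hKc : Nat.card K = w ^ 3 := GaloisField.card w 3 (by norm_num)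
  have hKf : Finite K := Nat.finite_of_card_ne_zero (by rw [hKc]; exact pow_ne_zero _ hw.ne_zero)
  have hdvd : D ∣ Nat.card K - 1 := by
    rw [hKc]
    have h1 : 1 ≤ w ^ 3 := Nat.one_le_pow _ _ hw.pos
    refine (ZMod.natCast_eq_zero_iff _ D).1 ?_
    push_cast [Nat.cast_sub h1]
    rw [hwD3, sub_self]
  obtain ⟨ζ, hζ⟩ := exists_unit_order (K := K) hdvd
  have hζD : ζ ^ D = 1 := by rw [← hζ]; exact pow_orderOf_eq_one ζ
  -- powers of ζ depend on the exponent modulo D
  have hpow : ∀ a b : ℕ, (a : ZMod D) = b → ζ ^ a = ζ ^ b := by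
    intro a b hab
    rw [pow_eq_pow_iff_modEq, hζ]
    exact (ZMod.natCast_eq_natCast_iff _ _ _).1 hab
  refine ⟨Multiplicative K, inferInstance, mulU ζ, ?_, ?_, ?_, ?_, ?_, ?_⟩
  · rw [← hKc]; exact Nat.card_congr Multiplicative.toAdd
  · rw [mulU_pow, hζD, mulU_one]
  · intro h1
    have h2 : mulU ζ (Multiplicative.ofAdd (1 : K)) = Multiplicative.ofAdd (1 : K) := by
      rw [h1]; rfl
    rw [mulU_apply, toAdd_ofAdd, mul_one] at h2
    have h4 : (ζ : K) = 1 := Multiplicative.ofAdd.injective h2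
    have h5 : ζ = 1 := Units.ext h4
    rw [h5, orderOf_one] at hζ
    exact hD.one_lt.ne hζ
  · intro H _ hH d hd hd1
    obtain ⟨e, ξ, hξ, he⟩ := sing (p := w) (r := D) (d := 3) hD hDw (by norm_num) le_rfl hwD3
      (by
        intro j hj0 hj3
        interval_cases j
        · simpa using hwD1
        · exact hwD2) H hH d hd hd1
    obtain ⟨u, hu⟩ := exists_unit_pow hD ζ ξ hζ hξ
    refine ⟨u, e, fun x => ?_⟩
    rw [mulU_pow_apply]
    apply Multiplicative.toAdd.injective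
    rw [he x, toAdd_ofAdd, hu, Units.val_pow_eq_pow_val]
  · refine ⟨AddEquiv.toMultiplicative
      ((RingEquiv.trans (frobeniusEquiv K w) (frobeniusEquiv K w)).toAddEquiv), fun x => ?_⟩
    rw [mulU_pow_apply]
    apply Multiplicative.toAdd.injective
    rw [mulU_apply, toAdd_ofAdd]
    show frobeniusEquiv K w (frobeniusEquiv K w ((ζ : K) ^ w * Multiplicative.toAdd x)) =
      (ζ : K) * frobeniusEquiv K w (frobeniusEquiv K w (Multiplicative.toAdd x))
    rw [map_mul, map_mul]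
    congr 1
    rw [frobeniusEquiv_apply, frobeniusEquiv_apply, frobenius_def, frobenius_def, ← pow_mul,
      ← pow_mul, ← Units.val_pow_eq_pow_val]
    have h6 : ζ ^ (w * (w * w)) = ζ ^ 1 := by
      refine hpow _ _ ?_
      push_cast
      linear_combination hwD3
    rw [h6, pow_one]
  · rintro u ⟨e, he⟩
    let f : K ≃+ K :=
      { toFun := fun x => Multiplicative.toAdd (e (Multiplicative.ofAdd x))
        invFun := fun x => Multiplicative.toAdd (e.symm (Multiplicative.ofAdd x))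
        left_inv := fun x => by simp
        right_inv := fun x => by simp
        map_add' := fun x y => by simp }
    obtain ⟨j, hj⟩ := sing_inj (p := w) (d := 3) (by norm_num)
      (((ζ ^ (u : ZMod D).val : Kˣ)) : K) (ζ : K) f (by
        intro x
        have h7 := he (Multiplicative.ofAdd x)
        rw [mulU_pow_apply, mulU_apply, toAdd_ofAdd] at h7
        show Multiplicative.toAdd (e (Multiplicative.ofAdd
          (((ζ ^ (u : ZMod D).val : Kˣ) : K) * x))) =
          (ζ : K) * Multiplicative.toAdd (e (Multiplicative.ofAdd x))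
        rw [Units.val_pow_eq_pow_val, h7, toAdd_ofAdd])
    rw [← Units.val_pow_eq_pow_val] at hj
    have h8 : ζ ^ 1 = ζ ^ ((u : ZMod D).val * w ^ j) := by
      rw [pow_one, pow_mul]
      exact Units.ext hj
    rw [pow_eq_pow_iff_modEq, hζ] at h8
    have h9 := (ZMod.natCast_eq_natCast_iff _ _ _).2 h8
    push_cast at h9
    rw [ZMod.natCast_zmod_val] at h9
    refine Units.ext ?_
    rw [Units.val_pow_eq_pow_val, Units.val_one]
    have h10 : ((u : ZMod D) * (w : ZMod D) ^ j) ^ 3 = 1 := by rw [← h9, one_pow]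
    rw [mul_pow, ← pow_mul, mul_comm j 3, pow_mul, hwD3, one_pow, mul_one] at h10
    exact h10

end Pool.Agent.helper74.GN
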