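import Pool.Agent.helper12.GN.GN0

/-!
# GNU project: GN7f, `B` and `D` do not both act on a group of order `w ^ 3`
-/

namespace Pool.Agent.helper74.GN

/-- GN7f: `B` and `D` do not both act. -/
theorem exclW {B C D w : ℕ} (h : HypQ B C D) (hw : HypW B C D w) (H : Type) [Group H]
    (hH : Nat.card H = w ^ 3) (b d : MulAut H) (hb : b ^ B = 1) (hd : d ^ D = 1)
    (hbd : Commute b d) : b = 1 ∨ d = 1 := by
  have hfin : Finite H := Nat.finite_of_card_ne_zero (by rw [hH]; exact pow_ne_zero _ hw.pw.ne_zero)
  have : Fact B.Prime := ⟨h.pB⟩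
  have : Fact D.Prime := ⟨h.pD⟩
  by_contra hcon
  push Not at hcon
  obtain ⟨hb1, hd1⟩ := hcon
  -- general: full fixed point set implies trivial
  have hfull : ∀ g : MulAut H, Nat.card {x : H // g x = x} = w ^ 3 → g = 1 := by
    intro g hg
    have h4 : ({x : H | g x = x} : Set H) = Set.univ := by
      refine (Set.eq_univ_iff_ncard _).2 ?_
      rw [hH, ← hg]
      exact (Nat.card_coe_set_eq _).symm
    refine MulEquiv.ext fun x => ?_
    have : x ∈ ({x : H | g x = x} : Set H) := h4 ▸ Set.mem_univ x
    exact this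
  -- arithmetic modulo D
  have hwD1 : (w : ZMod D) ≠ 1 := by
    intro h1
    have h2 := hw.wD
    rw [h1] at h2
    have h3 : ((3 : ℕ) : ZMod D) = 0 := by
      push_cast
      linear_combination h2
    have h4 := (ZMod.natCast_eq_zero_iff 3 D).1 h3
    have h5 := Nat.le_of_dvd (by norm_num) h4
    have := h.D7
    omega
  have hwD2 : (w : ZMod D) ^ 2 ≠ 1 := by
    intro h1
    have h2 := hw.wD
    have h3 : (w : ZMod D) = -2 := by linear_combination h2 - h1
    rw [h3] at h1
    have h4 : ((3 : ℕ) : ZMod D) = 0 := by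
      push_cast
      linear_combination h1
    have h4 := (ZMod.natCast_eq_zero_iff 3 D).1 h4
    have h5 := Nat.le_of_dvd (by norm_num) h4
    have := h.D7
    omega
  have hwD3 : (w : ZMod D) ^ 3 = 1 := by
    have h2 := hw.wD
    linear_combination ((w : ZMod D) - 1) * h2
  -- the fixed points of d
  obtain ⟨i, hi, hci, hei⟩ := aut_fix hw.pw h.pD H hH d hd
  have hi0 : i = 0 := by
    rw [hwD3] at hei
    interval_cases i
    · rfl
    · exact absurd (by simpa using hei.symm) hwD1
    · exact absurd hei.symm hwD2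
    · exact absurd (hfull d hci) hd1
  -- the fixed points of b
  obtain ⟨j, hj, hcj, hej⟩ := aut_fix hw.pw h.pB H hH b hb
  have hneg : (-1 : ZMod B) ≠ 1 := by
    intro h1
    have h3 : ((2 : ℕ) : ZMod B) = 0 := by
      push_cast
      linear_combination -h1
    have h4 := (ZMod.natCast_eq_zero_iff 2 B).1 h3
    have h5 := Nat.le_of_dvd (by norm_num) h4
    have := h.B7
    omega
  have hj1 : j = 1 := by
    rw [hw.wB] at hej
    interval_cases j
    · exact absurd (by simpa [pow_succ] using hej) hneg
    · rfl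
    · exact absurd (by simpa [pow_succ] using hej) hneg
    · exact absurd (hfull b hcj) hb1
  subst hj1
  -- the group of fixed points of b
  let F : Subgroup H := MonoidHom.eqLocus b.toMonoidHom (MonoidHom.id H)
  have hFm : ∀ x : H, x ∈ F ↔ b x = x := fun x => Iff.rfl
  have hFc : Nat.card F = w ^ 1 := by
    rw [← hcj]
    exact Nat.card_congr (Equiv.refl _)
  have hdF : ∀ x : H, x ∈ F → d x ∈ F := by
    intro x hx
    rw [hFm] at hx ⊢
    have h1 : (b * d) x = (d * b) x := by rw [hbd.eq]
    have h2 : b (d x) = d (b x) := h1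
    rw [h2, hx]
  have hdF' : ∀ x : H, x ∈ F → (d⁻¹ : MulAut H) x ∈ F := by
    intro x hx
    rw [hFm] at hx ⊢
    have h1 : (b * d⁻¹) x = (d⁻¹ * b) x := by rw [(hbd.inv_right).eq]
    have h2 : b ((d⁻¹ : MulAut H) x) = (d⁻¹ : MulAut H) (b x) := h1
    rw [h2, hx]
  let dF : MulAut F :=
    { toFun := fun x => ⟨d x, hdF x x.2⟩
      invFun := fun x => ⟨(d⁻¹ : MulAut H) x, hdF' x x.2⟩
      left_inv := fun x => Subtype.ext (by
        show (d⁻¹ * d) (x : H) = x
        rw [inv_mul_cancel]; rfl)
      right_inv := fun x => Subtype.ext (by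
        show (d * d⁻¹) (x : H) = x
        rw [mul_inv_cancel]; rfl)
      map_mul' := fun x y => Subtype.ext (by
        show d ((x : H) * y) = d x * d y
        rw [map_mul]) }
  have hdFc : ∀ (k : ℕ) (x : F), (((dF ^ k) x : F) : H) = (d ^ k) (x : H) := by
    intro k
    induction k with
    | zero => intro x; rfl
    | succ k ih =>
      intro x
      have e1 : (dF ^ (k + 1)) x = (dF ^ k) (dF x) := by rw [pow_succ]; rfl
      have e2 : (d ^ (k + 1)) (x : H) = (d ^ k) (d (x : H)) := by rw [pow_succ]; rfl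
      rw [e1, e2, ih]
      rfl
  have hdF1 : dF = 1 := by
    refine aut_trivial hw.pw h.pD (by have := hw.Dw; omega) ?_ F hFc dF ?_
    · intro j hj0 hj1
      have : j = 1 := by omega
      rw [this, pow_one]
      exact hwD1
    · refine MulEquiv.ext fun x => Subtype.ext ?_
      rw [hdFc, hd]
      rfl
  have hsub : Nat.card F ≤ Nat.card {x : H // d x = x} := by
    refine Nat.card_le_card_of_injective (fun x : F => (⟨(x : H), ?_⟩ : {x : H // d x = x})) ?_
    · have : ((dF x : F) : H) = x := by rw [hdF1]; rfl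
      exact this
    · intro x y hxy
      exact Subtype.ext (Subtype.mk.inj hxy)
  rw [hFc, hci, hi0, pow_one, pow_zero] at hsub
  have := hw.pw.one_lt
  omega

end Pool.Agent.helper74.GN
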